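import Pool.Agent.Helper42.SG.GoalsB
import Pool.Agent.Helper29.BL.ADD

/-!
# Project SG (MP_a41896_nt), part B, packet EDUP: iterated duplication
-/

set_option autoImplicit false
set_option linter.unusedSectionVars false

namespace Pool.Agent.Helper30.SGB

open WeierstrassCurve
open Pool.Agent.Helper29.BL Pool.Agent.Helper42.SG

section

variable {F : Type} [Field F] [DecidableEq F] (W : Affine F)

theorem ah_hom (x z : F) : Ah W (x * z) z = z ^ 4 * Af W x := by
  simp only [Ah, Af]; ring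

theorem bh_hom (x z : F) : Bh W (x * z) z = z ^ 4 * Bf W x := by
  simp only [Bh, Bf]; ring

theorem ch_hom (x z : F) : Ch W (x * z) z = z ^ 6 * Ch W x 1 := by
  simp only [Ch]; ring

omit [DecidableEq F] in
theorem ps_sq (x y : F) (h : W.Nonsingular x y) :
    (2 * y + W.a₁ * x + W.a₃) ^ 2 = Bf W x := by
  have e := (W.equation_iff x y).mp h.1
  simp only [Bf, WeierstrassCurve.b₂, WeierstrassCurve.b₄, WeierstrassCurve.b₆]
  linear_combination 4 * e

omit [DecidableEq F] in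
theorem negY_iff (x y : F) : y = W.negY x y ↔ 2 * y + W.a₁ * x + W.a₃ = 0 := by
  rw [Affine.negY]
  constructor
  · intro h; linear_combination h
  · intro h; linear_combination h

theorem two_eq_zero (x y : F) (h : W.Nonsingular x y) :
    Affine.Point.some x y h + Affine.Point.some x y h = 0 ↔ 2 * y + W.a₁ * x + W.a₃ = 0 := by
  rw [← negY_iff]
  constructor
  · intro h0
    by_contra hy
    rw [Affine.Point.add_self_of_Y_ne (h₁ := h) hy] at h0
    exact Affine.Point.some_ne_zero _ h0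
  · intro hy
    exact Affine.Point.add_self_of_Y_eq hy

omit [DecidableEq F] in
theorem af_ne (x y : F) (h : W.Nonsingular x y) (h0 : 2 * y + W.a₁ * x + W.a₃ = 0) :
    Af W x ≠ 0 := by
  have e := (W.equation_iff x y).mp h.1
  have hn := (W.nonsingular_iff x y).mp h
  have key : Af W x = (3 * x ^ 2 + 2 * W.a₂ * x + W.a₄ - W.a₁ * y) ^ 2 +
      W.a₁ * (3 * x ^ 2 + 2 * W.a₂ * x + W.a₄ - W.a₁ * y) * (2 * y + W.a₁ * x + W.a₃) -
        (W.a₂ + 2 * x) * (2 * y + W.a₁ * x + W.a₃) ^ 2 := by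
    simp only [Af, WeierstrassCurve.b₄, WeierstrassCurve.b₆, WeierstrassCurve.b₈]
    linear_combination (W.a₁ ^ 2 + 4 * W.a₂ + 8 * x) * e
  rw [h0] at key
  intro hA
  rw [hA] at key
  have h1 : (3 * x ^ 2 + 2 * W.a₂ * x + W.a₄ - W.a₁ * y) ^ 2 = 0 := by linear_combination -key
  have h2 : 3 * x ^ 2 + 2 * W.a₂ * x + W.a₄ - W.a₁ * y = 0 := by
    simpa using h1
  rcases hn.2 with h3 | h3
  · apply h3
    linear_combination -h2
  · apply h3
    linear_combination h0

theorem dup (x y : F) (h : W.Nonsingular x y) (h0 : 2 * y + W.a₁ * x + W.a₃ ≠ 0) :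
    xc (Affine.Point.some x y h + Affine.Point.some x y h) * Bf W x = Af W x ∧
      ps (Affine.Point.some x y h + Affine.Point.some x y h) *
        (2 * y + W.a₁ * x + W.a₃) ^ 3 = Ch W x 1 := by
  have e := (W.equation_iff x y).mp h.1
  have hy : y ≠ W.negY x y := fun h1 => h0 ((negY_iff W x y).1 h1)
  have hsum := Affine.Point.add_self_of_Y_ne (h₁ := h) hy
  rw [hsum]
  have hd : y - W.negY x y = 2 * y + W.a₁ * x + W.a₃ := by rw [Affine.negY]; ring
  simp only [xc, ps, Affine.slope_of_Y_ne rfl hy, Affine.addX, Affine.addY, Affine.negAddY, hd]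
  rw [← ps_sq W x y h]
  set η := 2 * y + W.a₁ * x + W.a₃ with hη
  set N := 3 * x ^ 2 + 2 * W.a₂ * x + W.a₄ - W.a₁ * y with hN
  set ℓ := N / η with hℓ
  have hℓη : ℓ * η = N := by rw [hℓ]; field_simp
  have e6 : W.a₆ = y ^ 2 + W.a₁ * x * y + W.a₃ * y - x ^ 3 - W.a₂ * x ^ 2 - W.a₄ * x := by
    linear_combination -e
  have hX : (ℓ ^ 2 + W.a₁ * ℓ - W.a₂ - x - x) * η ^ 2 =
      N ^ 2 + W.a₁ * N * η - (W.a₂ + 2 * x) * η ^ 2 := by
    rw [← hℓη]; ring
  constructor
  · rw [hX]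
    simp only [Af, WeierstrassCurve.b₄, WeierstrassCurve.b₆, WeierstrassCurve.b₈, e6, hN, hη]
    ring
  · rw [Affine.negY]
    set X3 := ℓ ^ 2 + W.a₁ * ℓ - W.a₂ - x - x with hX3
    have h1 : (2 * (-(ℓ * (X3 - x) + y) - W.a₁ * X3 - W.a₃) + W.a₁ * X3 + W.a₃) * η ^ 3 =
        -2 * ((ℓ * η) * (X3 * η ^ 2 - x * η ^ 2) + y * η ^ 3) - W.a₁ * (X3 * η ^ 2) * η -
          W.a₃ * η ^ 3 := by ring
    rw [h1, hℓη, hX]
    simp only [Ch, WeierstrassCurve.b₂, WeierstrassCurve.b₄, WeierstrassCurve.b₆,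
      WeierstrassCurve.b₈, e6, hN, hη]
    ring

end

theorem edup : EDUP := by
  intro F _ _ W _ P e hP
  induction e with
  | zero =>
    refine ⟨Or.inr ?_, ?_, ?_, ?_⟩
    · simp [Ph]
    · simp only [Ph, pow_zero, one_smul]
      exact ⟨fun h => absurd h one_ne_zero, fun h => absurd h hP⟩
    · intro _
      simp [Ph]
    · simp [Ph, Rr]
  | succ e ih =>
    obtain ⟨h1, h2, h3, h4⟩ := ih
    have hQ : (2 ^ (e + 1)) • P = (2 ^ e) • P + (2 ^ e) • P := by
      rw [pow_succ, mul_two, add_smul]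
    rw [hQ]
    generalize (2 ^ e) • P = Q at h2 h3 h4 ⊢
    have f1 : (Ph W (e + 1) (xc P)).1 = Ah W (Ph W e (xc P)).1 (Ph W e (xc P)).2 := rfl
    have f2 : (Ph W (e + 1) (xc P)).2 = Bh W (Ph W e (xc P)).1 (Ph W e (xc P)).2 := rfl
    have f3 : Rr W (e + 1) (xc P) =
      Rr W e (xc P) * Ch W (Ph W e (xc P)).1 (Ph W e (xc P)).2 := rfl
    rw [f1, f2, f3]
    generalize (Ph W e (xc P)).1 = t at h1 h2 h3 h4 ⊢
    generalize (Ph W e (xc P)).2 = z at h1 h2 h3 h4 ⊢
    by_cases hQ0 : Q = 0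
    · have hz : z = 0 := h2.2 hQ0
      have ht : t ≠ 0 := by
        rcases h1 with h | h
        · exact h
        · exact absurd hz h
      subst hz
      subst hQ0
      have hA : Ah W t 0 = t ^ 4 := by simp [Ah]
      have hB : Bh W t 0 = 0 := by simp [Bh]
      rw [hA, hB, add_zero]
      refine ⟨Or.inl (pow_ne_zero _ ht), by simp, fun h => absurd rfl h, ?_⟩
      have hps : ps (0 : W.Point) = 0 := rfl
      rw [hps, zero_mul] at h4
      rw [hps, zero_mul, ← mul_assoc, ← h4, zero_mul]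
    · have hz : z ≠ 0 := fun h => hQ0 (h2.1 h)
      rcases Q with _ | ⟨x, y, h⟩
      · exact absurd rfl hQ0
      have ht : t = x * z := h3 hQ0
      have h4' : (2 * y + W.a₁ * x + W.a₃) * z ^ 2 = ps P * Rr W e (xc P) := h4
      subst ht
      rw [ah_hom, bh_hom, ch_hom]
      have hz4 : z ^ 4 ≠ 0 := pow_ne_zero _ hz
      by_cases h0 : 2 * y + W.a₁ * x + W.a₃ = 0
      · have h20 := (two_eq_zero W x y h).2 h0
        have hB : Bf W x = 0 := by rw [← ps_sq W x y h, h0]; ring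
        rw [h20, hB, mul_zero]
        refine ⟨Or.inl (mul_ne_zero hz4 (af_ne W x y h h0)), by simp, fun h => absurd rfl h, ?_⟩
        rw [h0, zero_mul] at h4'
        have hps : ps (0 : W.Point) = 0 := rfl
        rw [hps, zero_mul, ← mul_assoc, ← h4', zero_mul]
      · have h20 : Affine.Point.some x y h + Affine.Point.some x y h ≠ 0 := fun h' =>
          h0 ((two_eq_zero W x y h).1 h')
        have hB : Bf W x ≠ 0 := by rw [← ps_sq W x y h]; exact pow_ne_zero _ h0
        obtain ⟨d1, d2⟩ := dup W x y h h0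
        refine ⟨Or.inr (mul_ne_zero hz4 hB), ?_, ?_, ?_⟩
        · exact ⟨fun h' => absurd h' (mul_ne_zero hz4 hB), fun h' => absurd h' h20⟩
        · intro _
          rw [← d1]
          ring
        · rw [← mul_assoc (ps P), ← h4', ← d2, ← ps_sq W x y h]
          ring

end Pool.Agent.Helper30.SGB
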